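import Pool.Agent.W544.PG.Defs4
import Pool.Agent.W216.PG.SOI

set_option autoImplicit false

/-!
# PG3-SO2: a form killed by the block-diagonal skew matrices is invariant under rotations
-/

open Matrix Finset Module

namespace Pool.Agent.W864.PG

open Pool.Agent.W544.PG Pool.Agent.W216.PG.SOI

noncomputable section

variable {n k r : ℕ} {c : Fin n → Fin r}

/-- a rotation fixes the form -/
lemma rot_fix' {s : (Fin k → Fin n) → ℂ} {Z : Matrix (Fin n) (Fin n) ℂ} (hs : act Z s = 0)
    (hZ3 : Z * Z * Z = -Z) (θ : ℂ) : pull (rot Z θ) s = s := by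
  funext J
  have hd : ∀ θ, HasDerivAt (fun θ => pull (rot Z θ) s J) 0 θ := by
    intro θ
    have h1 : HasDerivAt (fun θ => ∑ K : Fin k → Fin n, (∏ j, rot Z θ (K j) (J j)) * s K)
        (∑ K : Fin k → Fin n, (∑ i, (∏ j ∈ univ.erase i, rot Z θ (K j) (J j)) *
          (Z * rot Z θ) (K i) (J i)) * s K) θ := by
      refine HasDerivAt.fun_sum fun K _ => ?_
      refine HasDerivAt.mul_const ?_ _
      have := HasDerivAt.fun_finsetProd (u := (univ : Finset (Fin k))) (x := θ)
        (f := fun j θ => rot Z θ (K j) (J j)) (f' := fun j => (Z * rot Z θ) (K j) (J j))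
        (fun j _ => rot_entry_deriv hZ3 θ (K j) (J j))
      simpa only [smul_eq_mul] using this
    rw [pull_act, hs] at h1
    refine h1.congr_deriv ?_
    simp [pull]
  have h2 := is_const_of_deriv_eq_zero (f := fun θ => pull (rot Z θ) s J)
    (fun θ => (hd θ).differentiableAt) (fun θ => (hd θ).deriv) θ 0
  rw [h2, rot_zero, pull_one]

/-- a rotation which maps `u` to `v` -/
lemma move' {s : (Fin k → Fin n) → ℂ} {i : Fin r}
    (hs : ∀ Z : Matrix (Fin n) (Fin n) ℂ, Zᵀ = -Z → BD c Z → act Z s = 0) {u v : Fin n → ℂ}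
    (hus : ∀ a, c a ≠ i → u a = 0) (hvs : ∀ a, c a ≠ i → v a = 0)
    (hu : u ⬝ᵥ u = 1) (hv : v ⬝ᵥ v = 1) (huv : (u ⬝ᵥ v) ^ 2 ≠ 1) :
    ∃ g, Good s g ∧ g *ᵥ u = v ∧ ∀ x, u ⬝ᵥ x = 0 → v ⬝ᵥ x = 0 → g *ᵥ x = x := by
  obtain ⟨c', hc⟩ : ∃ c', c' = u ⬝ᵥ v := ⟨_, rfl⟩
  obtain ⟨d, hd⟩ := IsAlgClosed.exists_pow_nat_eq (1 - c' ^ 2) (n := 2) (by norm_num)
  have hd0 : d ≠ 0 := by
    rintro rfl
    apply huv
    rw [← hc]
    linear_combination hd
  obtain ⟨θ, hcos, hsin⟩ := exists_angle (c := c') (d := d) (by rw [hd]; ring)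
  obtain ⟨b, hb⟩ : ∃ b, b = d⁻¹ • (v - c' • u) := ⟨_, rfl⟩
  have hbs : ∀ a, c a ≠ i → b a = 0 := by
    intro a ha
    rw [hb]
    simp [hus a ha, hvs a ha]
  have hub : u ⬝ᵥ b = 0 := by
    rw [hb, dotProduct_smul, dotProduct_sub, dotProduct_smul, hu, ← hc, smul_eq_mul, smul_eq_mul]
    ring
  have hbb : b ⬝ᵥ b = 1 := by
    have h1 : (v - c' • u) ⬝ᵥ (v - c' • u) = d ^ 2 := by
      rw [sub_dotProduct, dotProduct_sub, dotProduct_sub, dotProduct_smul, dotProduct_smul,
        smul_dotProduct, smul_dotProduct, hu, hv, dotProduct_comm v u, ← hc, hd]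
      simp only [smul_eq_mul]
      ring
    rw [hb, dotProduct_smul, smul_dotProduct, h1, smul_eq_mul, smul_eq_mul]
    field_simp
  have hbu : b ⬝ᵥ u = 0 := by rw [dotProduct_comm, hub]
  have hvb : v = c' • u + d • b := by
    rw [hb, smul_smul, mul_inv_cancel₀ hd0, one_smul]
    abel
  obtain ⟨Z, hZdef⟩ : ∃ Z, Z = vecMulVec b u - vecMulVec u b := ⟨_, rfl⟩
  have hZ : Zᵀ = -Z := by
    rw [hZdef, transpose_sub, transpose_vecMulVec, transpose_vecMulVec, neg_sub]
  have hZB : BD c Z := by
    intro a a' haa
    rw [hZdef, Matrix.sub_apply, vecMulVec_apply, vecMulVec_apply]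
    by_cases ha : c a = i
    · have ha' : c a' ≠ i := fun h => haa (ha.trans h.symm)
      rw [hus a' ha', hbs a' ha']
      ring
    · rw [hus a ha, hbs a ha]
      ring
  have hZx : ∀ x, Z *ᵥ x = (u ⬝ᵥ x) • b - (b ⬝ᵥ x) • u := by
    intro x
    rw [hZdef, Matrix.sub_mulVec, vecMulVec_mulVec, vecMulVec_mulVec, op_smul_eq_smul,
      op_smul_eq_smul]
  have hZu : Z *ᵥ u = b := by rw [hZx, hu, hbu, one_smul, zero_smul, sub_zero]
  have hZb : Z *ᵥ b = -u := by rw [hZx, hub, hbb, one_smul, zero_smul, zero_sub]
  have hZ3 : Z * Z * Z = -Z := by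
    apply Matrix.toLin'.injective
    apply LinearMap.ext
    intro x
    rw [Matrix.toLin'_apply, Matrix.toLin'_apply, ← Matrix.mulVec_mulVec, ← Matrix.mulVec_mulVec,
      Matrix.neg_mulVec, hZx x, Matrix.mulVec_sub, Matrix.mulVec_smul, Matrix.mulVec_smul, hZu,
      hZb, Matrix.mulVec_sub, Matrix.mulVec_smul, Matrix.mulVec_smul, Matrix.mulVec_neg, hZu,
      hZb]
    module
  refine ⟨rot Z θ, ⟨rot_orth hZ hZ3 θ, rot_det hZ hZ3 θ, rot_fix' (hs Z hZ hZB) hZ3 θ⟩, ?_, ?_⟩
  · unfold rot
    rw [Matrix.add_mulVec, Matrix.add_mulVec, Matrix.one_mulVec, Matrix.smul_mulVec,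
      Matrix.smul_mulVec, ← Matrix.mulVec_mulVec, hZu, hZb, hcos, hsin]
    rw [hvb]
    module
  · intro x hux hvx
    have hbx : b ⬝ᵥ x = 0 := by
      rw [hb, smul_dotProduct, sub_dotProduct, smul_dotProduct, hux, hvx]
      simp
    have hZx0 : Z *ᵥ x = 0 := by rw [hZx, hux, hbx, zero_smul, zero_smul, sub_zero]
    unfold rot
    rw [Matrix.add_mulVec, Matrix.add_mulVec, Matrix.one_mulVec, Matrix.smul_mulVec,
      Matrix.smul_mulVec, ← Matrix.mulVec_mulVec, hZx0, Matrix.mulVec_zero, smul_zero, smul_zero,
      add_zero, add_zero]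

theorem claim' {s : (Fin k → Fin n) → ℂ} {i : Fin r}
    (hs : ∀ Z : Matrix (Fin n) (Fin n) ℂ, Zᵀ = -Z → BD c Z → act Z s = 0) (A : Finset (Fin n)) :
    (∀ a ∈ A, c a = i) → ∀ R : Matrix (Fin n) (Fin n) ℂ, Rᵀ * R = 1 → R.det = 1 →
      (∀ b : Fin n, b ∉ A → R *ᵥ e n b = e n b) → pull R s = s := by
  induction A using Finset.induction_on with
  | empty =>
    intro _ R _ _ hfix
    have hR1 : R = 1 := by
      apply ext_e
      intro b
      rw [hfix b (Finset.notMem_empty b), Matrix.one_mulVec]
    rw [hR1, pull_one]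
  | insert a A haA ih =>
    intro hA R hR hdet hfix
    set v := R *ᵥ e n a with hv
    have hvv : v ⬝ᵥ v = 1 := by
      rw [hv, orth_dot hR, e_dot_e, if_pos rfl]
    have haa : e n a ⬝ᵥ e n a = 1 := by rw [e_dot_e, if_pos rfl]
    have hvb : ∀ b, b ∉ insert a A → v ⬝ᵥ e n b = 0 := by
      intro b hb
      have h1 := orth_dot hR (e n a) (e n b)
      rw [hfix b hb, e_dot_e, if_neg] at h1
      · exact h1
      · rintro rfl
        exact hb (Finset.mem_insert_self _ _)
    have hv0 : ∀ b, b ∉ insert a A → v b = 0 := by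
      intro b hb
      have h3 := hvb b hb
      rw [dotProduct_comm, e_dot] at h3
      exact h3
    rcases A.eq_empty_or_nonempty with hAe | hAn
    · -- only one vector is moved
      subst hAe
      have hmem : ∀ b, b ≠ a → b ∉ insert a (∅ : Finset (Fin n)) := by
        intro b hb hb'
        rw [Finset.mem_insert] at hb'
        rcases hb' with hb' | hb'
        · exact hb hb'
        · exact absurd hb' (Finset.notMem_empty b)
      have hRd : R = Matrix.diagonal (fun b => if b = a then v a else 1) := by
        apply ext_e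
        intro b
        funext j
        have e1 : (Matrix.diagonal (fun b => if b = a then v a else 1) *ᵥ e n b) j =
            (if j = a then v a else 1) * e n b j := by
          rw [Matrix.mulVec_diagonal]
        rw [e1]
        by_cases hb : b = a
        · subst hb
          rw [← hv]
          by_cases hj : j = b
          · subst hj
            rw [if_pos rfl]
            simp [e]
          · rw [hv0 j (hmem j hj), if_neg hj, one_mul]
            simp [e, hj]
        · rw [hfix b (hmem b hb)]
          by_cases hj : j = a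
          · subst hj
            rw [if_pos rfl]
            simp [e, Ne.symm hb]
          · rw [if_neg hj, one_mul]
      have hvo : v a = 1 := by
        rw [hRd, Matrix.det_diagonal, Finset.prod_ite_eq' univ a] at hdet
        simpa using hdet
      have hR1 : R = 1 := by
        rw [hRd, hvo]
        simp
      rw [hR1, pull_one]
    · -- it is enough to map `v` to `e a`
      have hfin : ∀ g, Good s g → g *ᵥ v = e n a →
          (∀ b, b ∉ insert a A → g *ᵥ e n b = e n b) → pull R s = s := by
        intro g hg hgv hgi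
        have h1 := ih (fun b hb => hA b (Finset.mem_insert_of_mem hb)) (g * R) (by
            rw [transpose_mul, mul_assoc, ← mul_assoc gᵀ, hg.1, one_mul, hR])
          (by rw [Matrix.det_mul, hg.2.1, hdet, one_mul]) (by
            intro b hb
            rw [← Matrix.mulVec_mulVec]
            by_cases hba : b = a
            · rw [hba, ← hv, hgv]
            · have hb' : b ∉ insert a A := by
                rw [Finset.mem_insert]
                rintro (h | h)
                · exact hba h
                · exact hb h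
              rw [hfix b hb', hgi b hb'])
        rw [pull_mul, hg.2.2] at h1
        exact h1
      have hsup : ∀ b, c b ≠ i → b ∉ insert a A := fun b hb hb' => hb (hA b hb')
      have hvs : ∀ b, c b ≠ i → v b = 0 := fun b hb => hv0 b (hsup b hb)
      have hes : ∀ j ∈ insert a A, ∀ b, c b ≠ i → e n j b = 0 := by
        intro j hj b hb
        have hbj : b ≠ j := by
          rintro rfl
          exact hb (hA b hj)
        simp [e, hbj]
      by_cases hB : (v ⬝ᵥ e n a) ^ 2 ≠ 1
      · obtain ⟨g, hg, hgv, hgx⟩ := move' hs hvs (hes a (Finset.mem_insert_self _ _)) hvv haa hB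
        refine hfin g hg hgv fun b hb => hgx _ (hvb b hb) ?_
        rw [e_dot_e, if_neg]
        rintro rfl
        exact hb (Finset.mem_insert_self _ _)
      · push Not at hB
        rw [dotProduct_comm, e_dot] at hB
        obtain ⟨j, hjA, hj⟩ : ∃ j ∈ A, v j ^ 2 ≠ 1 := by
          by_contra hcon
          push Not at hcon
          have h1 : ∑ b : Fin n, v b ^ 2 = 1 := by
            rw [← hvv]
            simp only [dotProduct, sq]
          have h2 : ∀ b : Fin n, v b ^ 2 = if b ∈ insert a A then 1 else 0 := by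
            intro b
            by_cases hb : b ∈ insert a A
            · rw [if_pos hb]
              rcases Finset.mem_insert.1 hb with h | h
              · rw [h]
                exact hB
              · exact hcon b h
            · rw [if_neg hb, hv0 b hb]
              norm_num
          simp only [h2] at h1
          rw [Finset.sum_boole] at h1
          have h4 : (univ.filter fun b : Fin n => b ∈ insert a A).card = 1 := by
            exact_mod_cast h1
          have h5 : (univ.filter fun b : Fin n => b ∈ insert a A) = insert a A := by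
            ext b
            simp
          rw [h5, Finset.card_insert_of_notMem haA] at h4
          have := hAn.card_pos
          omega
        have hjI : j ∈ insert a A := Finset.mem_insert_of_mem hjA
        have hjj : e n j ⬝ᵥ e n j = 1 := by rw [e_dot_e, if_pos rfl]
        have hja : j ≠ a := by
          rintro rfl
          exact haA hjA
        obtain ⟨g1, hg1, hgv1, hgx1⟩ := move' hs hvs (hes j hjI) hvv hjj
          (by rw [dotProduct_comm, e_dot]; exact hj)
        obtain ⟨g2, hg2, hgv2, hgx2⟩ := move' hs (hes j hjI)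
          (hes a (Finset.mem_insert_self _ _)) hjj haa (by
          rw [e_dot_e, if_neg hja]; norm_num)
        refine hfin (g2 * g1) (hg2.mul hg1) (by rw [← Matrix.mulVec_mulVec, hgv1, hgv2]) ?_
        intro b hb
        have hjb : e n j ⬝ᵥ e n b = 0 := by
          rw [e_dot_e, if_neg]
          rintro rfl
          exact hb hjI
        have hab : e n a ⬝ᵥ e n b = 0 := by
          rw [e_dot_e, if_neg]
          rintro rfl
          exact hb (Finset.mem_insert_self _ _)
        rw [← Matrix.mulVec_mulVec, hgx1 _ (hvb b hb) hjb, hgx2 _ hjb hab]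

lemma bl_apply (i : Fin r) (R : Matrix (Fin n) (Fin n) ℂ) (a b : Fin n) :
    bl c i R a b = if c a = i ∧ c b = i then R a b else if a = b then 1 else 0 := rfl

lemma bl_of_ne_left {i : Fin r} (R : Matrix (Fin n) (Fin n) ℂ) {a : Fin n} (ha : c a ≠ i)
    (b : Fin n) : bl c i R a b = if a = b then 1 else 0 := by
  rw [bl_apply, if_neg fun h => ha h.1]

lemma bl_of_ne_right {i : Fin r} (R : Matrix (Fin n) (Fin n) ℂ) (a : Fin n) {b : Fin n}
    (hb : c b ≠ i) : bl c i R a b = if a = b then 1 else 0 := by
  rw [bl_apply, if_neg fun h => hb h.2]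

lemma bl_orth {R : Matrix (Fin n) (Fin n) ℂ} (hR : Rᵀ * R = 1) (hB : BD c R) (i : Fin r) :
    (bl c i R)ᵀ * bl c i R = 1 := by
  ext a b
  rw [Matrix.mul_apply]
  simp only [Matrix.transpose_apply]
  by_cases ha : c a = i
  · by_cases hb : c b = i
    · have h1 := congrFun (congrFun hR a) b
      rw [Matrix.mul_apply] at h1
      rw [← h1]
      refine Finset.sum_congr rfl fun x _ => ?_
      rw [Matrix.transpose_apply]
      by_cases hx : c x = i
      · rw [bl_apply, bl_apply, if_pos ⟨hx, ha⟩, if_pos ⟨hx, hb⟩]
      · rw [hB x a (by rw [ha]; exact hx), bl_of_ne_left R hx, if_neg, zero_mul, zero_mul]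
        rintro rfl
        exact hx ha
    · rw [Finset.sum_eq_single b]
      · have hab : b ≠ a := by
          rintro rfl
          exact hb ha
        rw [bl_of_ne_left R hb, if_neg hab, zero_mul, Matrix.one_apply_ne (Ne.symm hab)]
      · intro x _ hx
        rw [bl_of_ne_right R x hb, if_neg hx, mul_zero]
      · intro h
        exact absurd (Finset.mem_univ _) h
  · rw [Finset.sum_eq_single a]
    · rw [bl_of_ne_left R ha, bl_of_ne_left R ha, if_pos rfl, one_mul, Matrix.one_apply]
    · intro x _ hx
      rw [bl_of_ne_right R x ha, if_neg hx, zero_mul]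
    · intro h
      exact absurd (Finset.mem_univ _) h

/-- the blocks of the colours in `S` -/
def blS (c : Fin n → Fin r) (S : Finset (Fin r)) (R : Matrix (Fin n) (Fin n) ℂ) :
    Matrix (Fin n) (Fin n) ℂ :=
  Matrix.of fun a b => if c a ∈ S ∧ c b ∈ S then R a b else if a = b then 1 else 0

lemma blS_apply (S : Finset (Fin r)) (R : Matrix (Fin n) (Fin n) ℂ) (a b : Fin n) :
    blS c S R a b = if c a ∈ S ∧ c b ∈ S then R a b else if a = b then 1 else 0 := rfl

lemma blS_insert {R : Matrix (Fin n) (Fin n) ℂ} (hB : BD c R) {i : Fin r} {S : Finset (Fin r)}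
    (hi : i ∉ S) : blS c (insert i S) R = bl c i R * blS c S R := by
  ext a b
  rw [Matrix.mul_apply]
  by_cases ha : c a = i
  · have haS : c a ∉ S := by rw [ha]; exact hi
    have h1 : ∀ x, bl c i R a x * blS c S R x b = if x = b then bl c i R a b else 0 := by
      intro x
      by_cases hx : c x = i
      · have hxS : c x ∉ S := by rw [hx]; exact hi
        rw [blS_apply, if_neg (fun h => hxS h.1)]
        by_cases hxb : x = b
        · rw [if_pos hxb, if_pos hxb, mul_one, hxb]
        · rw [if_neg hxb, if_neg hxb, mul_zero]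
      · have hax : a ≠ x := by
          rintro rfl
          exact hx ha
        rw [bl_of_ne_right R a hx, if_neg hax, zero_mul]
        by_cases hxb : x = b
        · rw [if_pos hxb, ← hxb, bl_of_ne_right R a hx, if_neg hax]
        · rw [if_neg hxb]
    rw [Finset.sum_congr rfl fun x _ => h1 x, Finset.sum_ite_eq' univ b, if_pos (Finset.mem_univ b)]
    rw [blS_apply, bl_apply]
    by_cases hb : c b = i
    · have m1 : c a ∈ insert i S ∧ c b ∈ insert i S :=
        ⟨by rw [ha]; exact Finset.mem_insert_self _ _, by rw [hb]; exact Finset.mem_insert_self _ _⟩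
      have m2 : c a = i ∧ c b = i := ⟨ha, hb⟩
      rw [if_pos m1, if_pos m2]
    · have hab : a ≠ b := by
        rintro rfl
        exact hb ha
      have m2 : ¬ (c a = i ∧ c b = i) := fun h => hb h.2
      rw [if_neg m2, if_neg hab]
      split_ifs with h
      · exact hB a b (by rw [ha]; exact fun h => hb h.symm)
      · rfl
  · rw [Finset.sum_eq_single a]
    · rw [bl_of_ne_left R ha, if_pos rfl, one_mul, blS_apply, blS_apply]
      by_cases hb : c b = i
      · have hab : a ≠ b := by
          rintro rfl
          exact ha hb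
        have hbS : c b ∉ S := by rw [hb]; exact hi
        rw [if_neg (fun h : c a ∈ S ∧ c b ∈ S => hbS h.2), if_neg hab]
        split_ifs with h
        · exact hB a b (by rw [hb]; exact ha)
        · rfl
      · have e : (c a ∈ insert i S ∧ c b ∈ insert i S) ↔ (c a ∈ S ∧ c b ∈ S) := by
          rw [Finset.mem_insert, Finset.mem_insert]
          tauto
        simp only [e]
    · intro x _ hx
      rw [bl_of_ne_left R ha, if_neg (Ne.symm hx), zero_mul]
    · intro h
      exact absurd (Finset.mem_univ _) h

theorem so2 : S_so2 := by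
  intro n r k c s hs R hR hB hdet
  have h1 : ∀ i, pull (bl c i R) s = s := by
    intro i
    refine claim' (i := i) hs (univ.filter fun a => c a = i) (fun a ha => (Finset.mem_filter.1 ha).2)
      (bl c i R) (bl_orth hR hB i) (hdet i) ?_
    intro b hb
    have hb' : c b ≠ i := by
      intro h
      exact hb (Finset.mem_filter.2 ⟨Finset.mem_univ _, h⟩)
    funext a
    have h2 : (bl c i R *ᵥ e n b) a = bl c i R a b := by simp [e]
    rw [h2, bl_of_ne_right R a hb', e, Pi.single_apply]
  have h2 : ∀ S : Finset (Fin r), pull (blS c S R) s = s := by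
    intro S
    induction S using Finset.induction_on with
    | empty =>
      have e1 : blS c ∅ R = 1 := by
        ext a b
        rw [blS_apply, if_neg (fun h => absurd h.1 (Finset.notMem_empty _)), Matrix.one_apply]
      rw [e1, pull_one]
    | insert i S hi ih =>
      rw [blS_insert hB hi, pull_mul, h1 i, ih]
  have h3 : blS c univ R = R := by
    ext a b
    rw [blS_apply, if_pos ⟨Finset.mem_univ _, Finset.mem_univ _⟩]
  rw [← h3]
  exact h2 univ

end

end Pool.Agent.W864.PG
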